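import Pool.Agent.R815.Ck.Prob

/-!
# MP_0d3db7_pr : failure of the quenched central limit theorem for the excited random walk
with i.i.d. cookies in dimension one

We work in dimension `d = 1`.  A cookie environment is a function `p : ℤ → ℕ → ℝ` with values in
`[0,1]`, where `p z i = ω(z,+1,i)` and `1 - p z i = ω(z,-1,i)` (stacks are indexed by
`i = 1, 2, 3, …`; the value at `i = 0` is never used).
-/

namespace Pool.Agent.Results.MP_0d3db7_pr.NoQuenchedCLT

open Finset MeasureTheory ProbabilityTheory Filter Topology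

/-- `X_k` for the nearest neighbour path started at `0` whose steps `X_{j+1} - X_j` are `+1` for
`j ∈ A` and `-1` for `j ∉ A`. -/
def X (A : Finset ℕ) (k : ℕ) : ℤ := ∑ j ∈ range k, if j ∈ A then 1 else -1

/-- `#{m ≤ k : X_m = X_k}` -/
def visits (A : Finset ℕ) (k : ℕ) : ℕ := ((range (k + 1)).filter fun m => X A m = X A k).card

/-- The quenched probability `P_{0,ω}` that the first `n` steps are those of the path `A`:
the product over `k < n` of `ω(X_k, X_{k+1} - X_k, #{m ≤ k : X_m = X_k})`. -/
def pathProb (p : ℤ → ℕ → ℝ) (n : ℕ) (A : Finset ℕ) : ℝ :=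
  ∏ k ∈ range n, if k ∈ A then p (X A k) (visits A k) else 1 - p (X A k) (visits A k)

/-- The law of `X_n` under the quenched measure `P_{0,ω}`, as a measure on `ℝ`. -/
noncomputable def law (p : ℤ → ℕ → ℝ) (n : ℕ) : Measure ℝ :=
  ∑ A ∈ (range n).powerset, ENNReal.ofReal (pathProb p n A) • Measure.dirac (X A n : ℝ)

/-- The quenched central limit theorem for the environment `p`: for some centering sequence
`c` and some variance `v > 0` (both may depend on the environment), `(X_n - c_n)/√n` converges
in distribution under `P_{0,ω}` to the centered Gaussian law with variance `v`. -/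
def QuenchedCLT (p : ℤ → ℕ → ℝ) : Prop :=
  ∃ (c : ℕ → ℝ) (v : NNReal), 0 < v ∧ ∀ g : BoundedContinuousFunction ℝ ℝ,
    Tendsto (fun n : ℕ => ∫ x, g ((x - c n) / Real.sqrt n) ∂(law p n)) atTop
      (𝓝 (∫ x, g x ∂(gaussianReal 0 v)))

/-- `p` is an i.i.d. cookie environment on the probability space `(Ω, P)` whose cookies take the
two values `(1 + ρ)/2` and `(1 - ρ)/2` with probability `1/2` each. -/
structure IIDCookies (ρ : ℝ) {Ω : Type} [MeasurableSpace Ω] (P : Measure Ω)
    (p : ℤ → ℕ → Ω → ℝ) : Prop where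
  measurable : ∀ z i, Measurable (p z i)
  indep : iIndepFun (fun c : ℤ × ℕ => p c.1 c.2) P
  up : ∀ z i, P {ω | p z i ω = (1 + ρ) / 2} = 1 / 2
  down : ∀ z i, P {ω | p z i ω = (1 - ρ) / 2} = 1 / 2

open Pool.Agent.R815.Ck in
lemma X_eq (A : Finset ℕ) (k : ℕ) : X A k = pos A k := rfl

open Pool.Agent.R815.Ck in
lemma visits_eq (A : Finset ℕ) (k : ℕ) : visits A k = vis A k := rfl

open Pool.Agent.R815.Ck in
lemma pathProb_eq (p : ℤ → ℕ → ℝ) (n : ℕ) (A : Finset ℕ) :
    pathProb p n A = W (fun c => 2 * p c.1 c.2 - 1) n A := by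
  unfold pathProb W
  apply Finset.prod_congr rfl
  intro k _
  rw [X_eq, visits_eq]
  unfold st ck
  split_ifs <;> push_cast <;> ring

open Pool.Agent.R815.Ck in
lemma int_law {p : ℤ → ℕ → ℝ} (hp : ∀ z i, 0 ≤ p z i ∧ p z i ≤ 1) (n : ℕ) (g : ℝ → ℝ) :
    ∫ x, g x ∂(law p n) = Q n (fun z => g z) (fun c => 2 * p c.1 c.2 - 1) := by
  unfold law Q
  rw [integral_finsetSum_measure]
  · apply Finset.sum_congr rfl
    intro A _
    rw [integral_smul_measure, integral_dirac, X_eq, ENNReal.toReal_ofReal, pathProb_eq,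
      smul_eq_mul]
    rw [pathProb_eq]
    apply W_nonneg
    intro c
    rw [abs_le]
    constructor <;> linarith [(hp c.1 c.2).1, (hp c.1 c.2).2]
  · intro A _
    apply Integrable.smul_measure _ ENNReal.ofReal_ne_top
    exact integrable_dirac (by simp)

open Pool.Agent.R815.Ck in
/-- **Main result.**  For every `0 < ρ ≤ 10^{-6}` the quenched central limit theorem fails for the
one-dimensional excited random walk with i.i.d. (across sites and across positions within each
stack) cookies taking the values `(1 ± ρ)/2` with probability `1/2` each. -/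
theorem result (ρ : ℝ) (h0 : 0 < ρ) (h1 : ρ ≤ 1 / 1000000) :
    (∃ (Ω : Type) (_ : MeasurableSpace Ω) (P : Measure Ω) (_ : IsProbabilityMeasure P)
      (p : ℤ → ℕ → Ω → ℝ), IIDCookies ρ P p) ∧
    ∀ (Ω : Type) [MeasurableSpace Ω] (P : Measure Ω) [IsProbabilityMeasure P]
      (p : ℤ → ℕ → Ω → ℝ), IIDCookies ρ P p →
        ¬ ∀ᵐ ω ∂P, QuenchedCLT (fun z i => p z i ω) := by
  constructor
  · let μ : Measure ℝ := (1 / 2 : ENNReal) • Measure.dirac ((1 + ρ) / 2)
      + (1 / 2 : ENNReal) • Measure.dirac ((1 - ρ) / 2)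
    have hμ : IsProbabilityMeasure μ := by
      constructor
      simp only [μ, Measure.add_apply, Measure.smul_apply, measure_univ, smul_eq_mul, mul_one]
      exact ENNReal.add_halves 1
    have hne : (1 + ρ) / 2 ≠ (1 - ρ) / 2 := by intro h; linarith
    have hmu : μ {(1 + ρ) / 2} = 1 / 2 := by
      simp only [μ, Measure.add_apply, Measure.smul_apply, smul_eq_mul]
      rw [Measure.dirac_apply' _ (measurableSet_singleton _),
        Measure.dirac_apply' _ (measurableSet_singleton _)]
      rw [Set.indicator_of_mem (Set.mem_singleton _),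
        Set.indicator_of_notMem (by rw [Set.mem_singleton_iff]; exact hne.symm)]
      simp
    have hmd : μ {(1 - ρ) / 2} = 1 / 2 := by
      simp only [μ, Measure.add_apply, Measure.smul_apply, smul_eq_mul]
      rw [Measure.dirac_apply' _ (measurableSet_singleton _),
        Measure.dirac_apply' _ (measurableSet_singleton _)]
      rw [Set.indicator_of_notMem (by rw [Set.mem_singleton_iff]; exact hne),
        Set.indicator_of_mem (Set.mem_singleton _)]
      simp
    refine ⟨ℤ × ℕ → ℝ, inferInstance, Measure.infinitePi fun _ : ℤ × ℕ => μ, inferInstance,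
      fun z i ω => ω (z, i), ⟨?_, ?_, ?_, ?_⟩⟩
    · intro z i
      exact measurable_pi_apply _
    · exact iIndepFun_infinitePi (Ω := fun _ : ℤ × ℕ => ℝ) (P := fun _ => μ)
        (X := fun _ x => x) (fun _ => measurable_id)
    · intro z i
      have := measurePreserving_eval_infinitePi (fun _ : ℤ × ℕ => μ) (z, i)
      have h2 := this.measure_preimage (measurableSet_singleton ((1 + ρ) / 2)).nullMeasurableSet
      rw [hmu] at h2
      exact h2
    · intro z i
      have := measurePreserving_eval_infinitePi (fun _ : ℤ × ℕ => μ) (z, i)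
      have h2 := this.measure_preimage (measurableSet_singleton ((1 - ρ) / 2)).nullMeasurableSet
      rw [hmd] at h2
      exact h2
  · intro Ω _ P _ p hp hclt
    have hm : ∀ c : ℤ × ℕ, Measurable fun ω => 2 * p c.1 c.2 ω - 1 := fun c =>
      ((hp.measurable c.1 c.2).const_mul 2).sub_const 1
    have hi : iIndepFun (fun (c : ℤ × ℕ) ω => 2 * p c.1 c.2 ω - 1) P :=
      hp.indep.comp (fun _ x => 2 * x - 1) (fun _ => by fun_prop)
    have hup : ∀ c : ℤ × ℕ, P ((fun ω => 2 * p c.1 c.2 ω - 1) ⁻¹' {ρ}) = 1 / 2 := by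
      intro c
      rw [← hp.up c.1 c.2]
      congr 1
      ext ω
      simp only [Set.mem_preimage, Set.mem_singleton_iff, Set.mem_ofPred_eq]
      constructor <;> intro h <;> linarith
    have hdn : ∀ c : ℤ × ℕ, P ((fun ω => 2 * p c.1 c.2 ω - 1) ⁻¹' {-ρ}) = 1 / 2 := by
      intro c
      rw [← hp.down c.1 c.2]
      congr 1
      ext ω
      simp only [Set.mem_preimage, Set.mem_singleton_iff, Set.mem_ofPred_eq]
      constructor <;> intro h <;> linarith
    apply not_gaussLim h0 h1 hm hi hup hdn
    filter_upwards [hclt, ae_pm h0 hm hup hdn] with ω hω hpm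
    obtain ⟨c, v, hv, hg⟩ := hω
    have hp01 : ∀ z i, 0 ≤ p z i ω ∧ p z i ω ≤ 1 := by
      intro z i
      rcases hpm (z, i) with h | h <;> simp only at h <;> constructor <;> linarith
    refine ⟨c, v, hv, fun g => ?_⟩
    refine (hg g).congr fun n => ?_
    rw [int_law hp01 n (fun x => g ((x - c n) / Real.sqrt n))]

end Pool.Agent.Results.MP_0d3db7_pr.NoQuenchedCLT
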